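import Pool.Agent.Work.MP_3893a0_gt.Final

/-!
# The Singer conjecture for aspherical Class VII surfaces with positive second Betti number

Let `X` be a compact connected complex surface whose compact complex curves do not have a dense
union. (All surfaces of algebraic dimension zero, in particular all surfaces of Class
`VII_0^+`, have only finitely many compact curves.) Let `p : Y → X` be its universal cover, with
deck transformation group `G`. Then the first `ℓ²`-Betti number of `X` vanishes: the reduced
first `ℓ²`-cohomology of `G` is zero, equivalently every harmonic function with finite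
Dirichlet energy on a Cayley graph of `G` is constant.
-/

open scoped ContDiff Manifold

namespace Pool.Agent.Results.MP_3893a0_gt.SingerClassVII

/-- `C` is a (possibly reducible, possibly singular) compact complex curve in the compact
complex surface `X`: `C` is closed, and near each of its points `C` is the zero set of a
holomorphic function which does not vanish identically near the point. -/
def IsCompactCurve {X : Type*} [TopologicalSpace X] [ChartedSpace (ℂ × ℂ) X] (C : Set X) : Prop :=
  IsClosed C ∧ ∀ x ∈ C, ∃ U : Set X, IsOpen U ∧ x ∈ U ∧ ∃ f : X → ℂ,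
    MDifferentiableOn 𝓘(ℂ, ℂ × ℂ) 𝓘(ℂ, ℂ) f U ∧ (¬ ∀ᶠ y in nhds x, f y = 0) ∧
      C ∩ U = {y | y ∈ U ∧ f y = 0}

/-- `h` has finite Dirichlet energy on the Cayley graph of `G` with respect to `S`:
the sum over `x ∈ G`, `s ∈ S` of `(h (x s) - h x)²` is finite. -/
def DirichletFinite {G : Type*} [Group G] (S : Finset G) (h : G → ℝ) : Prop :=
  Summable fun q : G × S => (h (q.1 * q.2) - h q.1) ^ 2

/-- `h` is harmonic on the Cayley graph of `G` with respect to `S`. -/
def IsHarmonic {G : Type*} [Group G] (S : Finset G) (h : G → ℝ) : Prop :=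
  ∀ x : G, ∑ s ∈ S, (h (x * s) + h (x * s⁻¹) - 2 * h x) = 0

/-- The reduced first `ℓ²`-cohomology of `G`, computed on the Cayley graph with respect to the
finite generating set `S`, vanishes: every function with finite Dirichlet energy is a limit,
for the Dirichlet energy, of finitely supported functions. -/
def ReducedL2CohomologyVanishes {G : Type*} [Group G] (S : Finset G) : Prop :=
  ∀ f : G → ℝ, DirichletFinite S f → ∀ ε > 0, ∃ φ : G →₀ ℝ,
    ∑' q : G × S, ((f (q.1 * q.2) - φ (q.1 * q.2)) - (f q.1 - φ q.1)) ^ 2 < ε

/-- Main theorem. -/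
theorem result {X Y G : Type*} [TopologicalSpace X] [T2Space X] [CompactSpace X]
    [ChartedSpace (ℂ × ℂ) X] [IsManifold 𝓘(ℂ, ℂ × ℂ) ω X]
    [TopologicalSpace Y] [SimplyConnectedSpace Y] [Group G] [MulAction G Y]
    {p : Y → X} (hp : IsQuotientCoveringMap p G)
    (hX : ¬ Dense (⋃₀ {C : Set X | IsCompactCurve C})) :
    (∃ S : Finset G, Subgroup.closure (S : Set G) = ⊤) ∧
      ∀ S : Finset G, Subgroup.closure (S : Set G) = ⊤ →
        ReducedL2CohomologyVanishes S ∧
          ∀ h : G → ℝ, DirichletFinite S h → IsHarmonic S h → ∀ x y, h x = h y := by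
  obtain ⟨h1, h2⟩ := Sing.main (p := p) hp hX
  exact ⟨h1, fun S hS => h2 S hS⟩

end Pool.Agent.Results.MP_3893a0_gt.SingerClassVII
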